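import Pool.Agent.Lib.helper3.OrdN

namespace Pool.Agent.Results.MP_5127fd_an.Converges

open Filter Topology

variable {X : Type} [NormedAddCommGroup X] [NormedSpace ℝ X]

/-- `P` is a norm-closed cone (not necessarily generating, not assumed normal). -/
def IsClosedCone (P : Set X) : Prop :=
  IsClosed P ∧ (∀ x ∈ P, ∀ y ∈ P, x + y ∈ P) ∧ (∀ c : ℝ, 0 ≤ c → ∀ x ∈ P, c • x ∈ P) ∧
    P ∩ (-P) = {0}

/-- The order given by the cone: `x ≤ y` iff `y - x ∈ P`. -/
def Le (P : Set X) (x y : X) : Prop := y - x ∈ P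

/-- An increasing sequence with an upper bound. -/
def IncBdd (P : Set X) (x : ℕ → X) : Prop :=
  (∀ n, Le P (x n) (x (n + 1))) ∧ ∃ v, ∀ n, Le P (x n) v

/-- Property (S): every order bounded increasing sequence has a supremum. -/
def PropS (P : Set X) : Prop :=
  ∀ x : ℕ → X, IncBdd P x →
    ∃ s, (∀ n, Le P (x n) s) ∧ ∀ u, (∀ n, Le P (x n) u) → Le P s u

/-- In a separable ordered Banach space with property (S), every order bounded increasing
sequence is norm convergent. -/
theorem result (X : Type) [NormedAddCommGroup X] [NormedSpace ℝ X] [CompleteSpace X]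
    [TopologicalSpace.SeparableSpace X] (P : Set X) (h : IsClosedCone P) (hS : PropS P)
    (x : ℕ → X) (hx : IncBdd P x) : ∃ l, Tendsto x atTop (𝓝 l) := by
  obtain ⟨h1, v, hv⟩ := hx
  exact Pool.Agent.Lib.helper3.ON.converges ⟨h.1, h.2.1, h.2.2.1, h.2.2.2⟩
    (fun y hy ⟨_, b, hb⟩ => hS y ⟨hy, b, fun n => (hb n).2⟩) x h1 v hv

end Pool.Agent.Results.MP_5127fd_an.Converges
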