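import Mathlib

namespace Pool.Agent.Results.MP_5127fd_an.Normal

open Filter Topology BoundedContinuousFunction

variable {X : Type} [NormedAddCommGroup X] [NormedSpace ℝ X]

/-- `P` is a norm-closed cone (not necessarily generating). -/
structure IsClosedCone (P : Set X) : Prop where
  closed : IsClosed P
  add_mem : ∀ x ∈ P, ∀ y ∈ P, x + y ∈ P
  smul_mem : ∀ c : ℝ, 0 ≤ c → ∀ x ∈ P, c • x ∈ P
  pointed : P ∩ (-P) = {0}

/-- The order given by the cone: `x ≤ y` iff `y - x ∈ P`. -/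
def Le (P : Set X) (x y : X) : Prop := y - x ∈ P

/-- Property (S): every increasing order bounded sequence has a supremum. -/
def PropS (P : Set X) : Prop :=
  ∀ x : ℕ → X, (∀ n, Le P (x n) (x (n + 1))) → (∃ a b, ∀ n, Le P a (x n) ∧ Le P (x n) b) →
    ∃ s, (∀ n, Le P (x n) s) ∧ ∀ u, (∀ n, Le P (x n) u) → Le P s u

/-- The cone is normal. -/
def IsNormal (P : Set X) : Prop :=
  ∃ c : ℝ, 0 < c ∧ ∀ x y : X, Le P 0 x → Le P x y → ‖x‖ ≤ c * ‖y‖

variable {P : Set X}

lemma IsClosedCone.zero (h : IsClosedCone P) : (0 : X) ∈ P := by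
  have : (0 : X) ∈ P ∩ (-P) := by rw [h.pointed]; rfl
  exact this.1

lemma IsClosedCone.eq_zero (h : IsClosedCone P) {x : X} (h1 : x ∈ P) (h2 : -x ∈ P) : x = 0 := by
  have : x ∈ P ∩ (-P) := ⟨h1, h2⟩
  rwa [h.pointed] at this

lemma IsClosedCone.sum (h : IsClosedCone P) (s : Finset ℕ) (f : ℕ → X) (hf : ∀ n ∈ s, f n ∈ P) :
    ∑ n ∈ s, f n ∈ P :=
  Finset.sum_induction f (· ∈ P) (fun a b ha hb => h.add_mem a ha b hb) h.zero hf

def ps (x : ℕ → X) (a : ℕ → ℝ) (N : ℕ) : X := ∑ n ∈ Finset.range N, a n • x n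

lemma ps_sub (x : ℕ → X) (a : ℕ → ℝ) {N M : ℕ} (h : N ≤ M) :
    ps x a M - ps x a N = ∑ n ∈ Finset.Ico N M, a n • x n := by
  rw [ps, ps, Finset.sum_Ico_eq_sub _ h]

lemma ps_mono (h : IsClosedCone P) {x : ℕ → X} (hx : ∀ n, x n ∈ P) {a : ℕ → ℝ}
    (ha : ∀ n, 0 ≤ a n) {N M : ℕ} (hNM : N ≤ M) : ps x a M - ps x a N ∈ P := by
  rw [ps_sub x a hNM]
  exact h.sum _ _ fun n _ => h.smul_mem _ (ha n) _ (hx n)

lemma ps_lin (x : ℕ → X) (a b : ℕ → ℝ) (c d : ℝ) (N : ℕ) :
    ps x (fun n => c * a n + d * b n) N = c • ps x a N + d • ps x b N := by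
  simp only [ps, Finset.smul_sum, ← Finset.sum_add_distrib, add_smul, mul_smul]

lemma ex_sup (h : IsClosedCone P) (hS : PropS P) {x : ℕ → X} (hx : ∀ n, x n ∈ P) {y : X}
    (hy : ∀ N, y - ps x (fun _ => 1) N ∈ P) (a : ℕ → ℝ) (c : ℝ) (ha : ∀ n, 0 ≤ a n ∧ a n ≤ c) :
    ∃ s, (∀ N, s - ps x a N ∈ P) ∧ ∀ u, (∀ N, u - ps x a N ∈ P) → u - s ∈ P := by
  apply hS (ps x a) (fun n => ps_mono h hx (fun n => (ha n).1) (Nat.le_succ n))
  refine ⟨0, c • y, fun N => ⟨?_, ?_⟩⟩
  · simpa [Le, ps] using ps_mono h hx (fun n => (ha n).1) (Nat.zero_le N)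
  · have h1 := h.smul_mem c ((ha 0).1.trans (ha 0).2) _ (hy N)
    have h2 := ps_mono h hx (a := fun n => c * 1 + (-1) * a n)
      (fun n => by linarith [(ha n).2]) (Nat.zero_le N)
    rw [ps_lin x (fun _ => 1) a] at h2
    have h3 := h.add_mem _ h1 _ h2
    unfold Le
    convert h3 using 1
    simp only [ps, Finset.range_zero, Finset.sum_empty]
    module

def Good (P : Set X) (x : ℕ → X) (S : X) (a : ℕ → ℝ) (C : ℝ) (N0 : ℕ) (s : X) : Prop :=
  ∀ N, N0 ≤ N → C • (S - ps x (fun _ => 1) N) - (s - ps x a N) ∈ P ∧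
    C • (S - ps x (fun _ => 1) N) + (s - ps x a N) ∈ P

lemma small (h : IsClosedCone P) {x : ℕ → X} (hx : ∀ n, x n ∈ P) {S : X}
    (hS1 : ∀ N, S - ps x (fun _ => 1) N ∈ P)
    (hS2 : ∀ u, (∀ N, u - ps x (fun _ => 1) N ∈ P) → u - S ∈ P) (C : ℝ) (N0 : ℕ) (d : X)
    (hd : ∀ N, N0 ≤ N → C • (S - ps x (fun _ => 1) N) - d ∈ P) : -d ∈ P := by
  have hp : 0 < |C| + 1 := by positivity
  have h1 : ∀ N, N0 ≤ N → (S - (|C| + 1)⁻¹ • d) - ps x (fun _ => 1) N ∈ P := by
    intro N hN
    have h2 := h.add_mem _ (hd N hN) _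
      (h.smul_mem (|C| + 1 - C) (by linarith [le_abs_self C]) _ (hS1 N))
    have h3 := h.smul_mem (|C| + 1)⁻¹ (by positivity) _ h2
    convert h3 using 1
    have : (|C| + 1)⁻¹ * (|C| + 1) = 1 := inv_mul_cancel₀ hp.ne'
    have e : C • (S - ps x (fun _ => 1) N) - d + (|C| + 1 - C) • (S - ps x (fun _ => 1) N) =
        (|C| + 1) • (S - ps x (fun _ => 1) N) - d := by module
    rw [e, smul_sub _ ((|C| + 1) • _), smul_smul, this, one_smul]
    abel
  have h2 := hS2 (S - (|C| + 1)⁻¹ • d) (fun N => by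
    have h3 := h.add_mem _ (h1 (max N N0) (le_max_right _ _)) _
      (ps_mono h hx (a := fun _ => 1) (fun _ => zero_le_one) (le_max_left N N0))
    convert h3 using 1
    abel)
  have h3 := h.smul_mem (|C| + 1) hp.le _ h2
  convert h3 using 1
  rw [sub_sub_cancel_left, smul_neg, smul_smul, mul_inv_cancel₀ hp.ne', one_smul]

lemma good_uniq (h : IsClosedCone P) {x : ℕ → X} (hx : ∀ n, x n ∈ P) {S : X}
    (hS1 : ∀ N, S - ps x (fun _ => 1) N ∈ P)
    (hS2 : ∀ u, (∀ N, u - ps x (fun _ => 1) N ∈ P) → u - S ∈ P) {a : ℕ → ℝ} {C C' : ℝ}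
    {N0 N1 : ℕ} {s s' : X} (g : Good P x S a C N0 s) (g' : Good P x S a C' N1 s') : s = s' := by
  rw [← sub_eq_zero]
  apply h.eq_zero
  · have := small h hx hS1 hS2 (C + C') (max N0 N1) (s' - s) (fun N hN => by
      have := h.add_mem _ (g N (le_of_max_le_left hN)).2 _ (g' N (le_of_max_le_right hN)).1
      convert this using 1
      module)
    rwa [neg_sub] at this
  · exact small h hx hS1 hS2 (C + C') (max N0 N1) (s - s') (fun N hN => by
      have := h.add_mem _ (g N (le_of_max_le_left hN)).1 _ (g' N (le_of_max_le_right hN)).2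
      convert this using 1
      module)

lemma good_ex (h : IsClosedCone P) (hS : PropS P) {x : ℕ → X} (hx : ∀ n, x n ∈ P) {S : X}
    (hS1 : ∀ N, S - ps x (fun _ => 1) N ∈ P) (a : ℕ → ℝ) (c : ℝ) (ha : ∀ n, |a n| ≤ c) :
    ∃ s, Good P x S a c 0 s := by
  have hc : 0 ≤ c := (abs_nonneg _).trans (ha 0)
  have hb : ∀ n, 0 ≤ 1 * a n + c * 1 ∧ 1 * a n + c * 1 ≤ 2 * c := fun n => by
    have := abs_le.1 (ha n)
    constructor <;> linarith
  obtain ⟨t, t1, t2⟩ := ex_sup h hS hx hS1 (fun n => 1 * a n + c * 1) (2 * c) hb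
  refine ⟨t - c • S, fun N _ => ⟨?_, ?_⟩⟩
  · have := t2 (ps x (fun n => 1 * a n + c * 1) N + (2 * c) • (S - ps x (fun _ => 1) N))
      (fun M => by
        rcases le_total M N with hM | hM
        · have := h.add_mem _ (ps_mono h hx (fun n => (hb n).1) hM) _
            (h.smul_mem (2 * c) (by linarith) _ (hS1 N))
          convert this using 1
          abel
        · have h1 := ps_mono h hx (a := fun n => (-1) * a n + c * 1)
            (fun n => by linarith [(hb n).2]) hM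
          have h2 := h.add_mem _ h1 _ (h.smul_mem (2 * c) (by linarith) _ (hS1 M))
          simp only [ps_lin x a (fun _ => 1)] at h2 ⊢
          convert h2 using 1
          module)
    simp only [ps_lin x a (fun _ => 1)] at this
    convert this using 1
    module
  · have := t1 N
    simp only [ps_lin x a (fun _ => 1)] at this
    convert this using 1
    module

lemma bounded [CompleteSpace X] (h : IsClosedCone P) (hS : PropS P) {x : ℕ → X}
    (hx : ∀ n, x n ∈ P) {y : X} (hy : ∀ N, y - ps x (fun _ => 1) N ∈ P) :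
    ∃ K : ℝ, ∀ n, ‖x n‖ ≤ K := by
  obtain ⟨S, hS1, hS2⟩ := ex_sup h hS hx hy (fun _ => 1) 1 (fun _ => ⟨zero_le_one, le_rfl⟩)
  choose T hT using fun a : ℕ →ᵇ ℝ =>
    good_ex h hS hx hS1 a ‖a‖ (fun n => a.norm_coe_le_norm n)
  have hlin : ∀ (c d : ℝ) (a b : ℕ →ᵇ ℝ), T (c • a + d • b) = c • T a + d • T b := by
    intro c d a b
    refine good_uniq h hx hS1 hS2 (hT _) (C' := |c| * ‖a‖ + |d| * ‖b‖) (N1 := 0) ?_
    intro N hN
    have e : ps x (⇑(c • a + d • b)) N = c • ps x a N + d • ps x b N := ps_lin x a b c d N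
    rw [e]
    have key : ∀ (c : ℝ) (a : ℕ →ᵇ ℝ),
        (|c| * ‖a‖) • (S - ps x (fun _ => 1) N) - c • (T a - ps x a N) ∈ P := by
      intro c a
      rcases le_total 0 c with hc | hc
      · have := h.smul_mem c hc _ (hT a N hN).1
        rw [abs_of_nonneg hc]
        convert this using 1
        module
      · have := h.smul_mem (-c) (by linarith) _ (hT a N hN).2
        rw [abs_of_nonpos hc]
        convert this using 1
        module
    constructor
    · have := h.add_mem _ (key c a) _ (key d b)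
      convert this using 1
      module
    · have := h.add_mem _ (key (-c) a) _ (key (-d) b)
      rw [abs_neg, abs_neg] at this
      convert this using 1
      module
  let L : (ℕ →ᵇ ℝ) →ₗ[ℝ] X :=
    { toFun := T
      map_add' := fun a b => by simpa using hlin 1 1 a b
      map_smul' := fun c a => by simpa using hlin c 0 a a }
  have hb : ∀ a : ℕ →ᵇ ℝ, ‖a‖ • S - L a ∈ P ∧ ‖a‖ • S + L a ∈ P := fun a => by
    simpa [ps, L] using hT a 0 le_rfl
  have hc : Continuous L := by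
    apply L.continuous_of_seq_closed_graph
    intro u a z hu hz
    have h1 : Tendsto (fun n => ‖u n - a‖ • S) atTop (𝓝 ((0 : ℝ) • S)) :=
      (tendsto_iff_norm_sub_tendsto_zero.1 hu).smul_const S
    have h2 : Tendsto (fun n => L (u n - a)) atTop (𝓝 (z - L a)) := by
      simp only [map_sub]
      exact hz.sub_const _
    rw [← sub_eq_zero]
    apply h.eq_zero
    · simpa using h.closed.mem_of_tendsto (h1.add h2) (Eventually.of_forall fun n => (hb _).2)
    · simpa using h.closed.mem_of_tendsto (h1.sub h2) (Eventually.of_forall fun n => (hb _).1)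
  let L' : (ℕ →ᵇ ℝ) →L[ℝ] X := ⟨L, hc⟩
  refine ⟨‖L'‖, fun n => ?_⟩
  let e : ℕ →ᵇ ℝ := ofNormedAddCommGroupDiscrete (fun m => if m = n then 1 else 0) 1
    (fun m => by split_ifs <;> simp)
  have he : ‖e‖ ≤ 1 := (norm_le zero_le_one).2 (fun m => by
    show ‖(if m = n then (1 : ℝ) else 0)‖ ≤ 1
    split_ifs <;> simp)
  have hTe : T e = x n := by
    refine good_uniq h hx hS1 hS2 (hT e) (C' := 0) (N1 := n + 1) ?_
    intro N hN
    have : ps x e N = x n := by
      unfold ps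
      rw [Finset.sum_eq_single_of_mem n (Finset.mem_range.2 hN)]
      · show (if n = n then (1 : ℝ) else 0) • x n = x n
        simp
      · intro m _ hm
        show (if m = n then (1 : ℝ) else 0) • x m = 0
        simp [hm]
    simp [this, h.zero]
  calc ‖x n‖ = ‖L' e‖ := by rw [← hTe]; rfl
    _ ≤ ‖L'‖ * ‖e‖ := L'.le_opNorm e
    _ ≤ ‖L'‖ := mul_le_of_le_one_right L'.opNorm_nonneg he

theorem result (X : Type) [NormedAddCommGroup X] [NormedSpace ℝ X] [CompleteSpace X]
    (P : Set X) (h : IsClosedCone P) (hS : PropS P) : IsNormal P := by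
  by_contra hn
  have h1 : ∀ n : ℕ, ∃ x y : X, x ∈ P ∧ y - x ∈ P ∧ ‖x‖ = n + 1 ∧ ‖y‖ ≤ (1 / 2) ^ n := by
    intro n
    by_contra hc
    apply hn
    refine ⟨(n + 1) * 2 ^ n, by positivity, fun x y hx hy => ?_⟩
    by_contra hlt
    push Not at hlt
    have hx0 : 0 < ‖x‖ := lt_of_le_of_lt (by positivity) hlt
    have hp : (0 : ℝ) ≤ (n + 1) / ‖x‖ := by positivity
    refine hc ⟨((n + 1) / ‖x‖) • x, ((n + 1) / ‖x‖) • y, ?_, ?_, ?_, ?_⟩
    · exact h.smul_mem _ hp _ (by simpa [Le] using hx)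
    · rw [← smul_sub]; exact h.smul_mem _ hp _ hy
    · rw [norm_smul, Real.norm_of_nonneg hp]; field_simp
    · rw [norm_smul, Real.norm_of_nonneg hp, div_mul_eq_mul_div, div_le_iff₀ hx0, one_div,
        inv_pow, inv_mul_eq_div, le_div_iff₀ (by positivity)]
      linarith
  choose x y hx hy hxn hyn using h1
  have hsum : Summable y :=
    Summable.of_norm_bounded (summable_geometric_of_lt_one (by norm_num) (by norm_num)) hyn
  have hyP : ∀ n, y n ∈ P := fun n => by simpa using h.add_mem _ (hy n) _ (hx n)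
  obtain ⟨K, hK⟩ := bounded h hS hx (y := ∑' n, y n) (fun N => by
    refine h.closed.mem_of_tendsto (hsum.hasSum.tendsto_sum_nat.sub_const _) ?_
    filter_upwards [eventually_ge_atTop N] with M hM
    have h1 := ps_mono h hyP (a := fun _ => 1) (fun _ => zero_le_one) hM
    have h2 := h.sum (Finset.range N) (fun n => y n - x n) (fun n _ => hy n)
    have h3 := h.add_mem _ h1 _ h2
    convert h3 using 1
    simp [ps, Finset.sum_sub_distrib])
  obtain ⟨n, hn⟩ := exists_nat_gt K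
  have := hK n
  rw [hxn] at this
  linarith

end Pool.Agent.Results.MP_5127fd_an.Normal
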